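import Pool.Agent.R733.WeiSlice

set_option autoImplicit false

/-!
# MP_60983f_an: slices of Weierstrass graphs in non-vertical directions

For every integer `b ≥ 2` and every `0 < α < 1` there is a nonempty open ball of `Lip(S¹)` all of whose
members `g` are non-constant and have a non-extremal slice of the graph of `W_g` in a non-vertical
direction consisting of one point (`ball_single`). Hence the set of those non-constant `g` for which some
non-extremal non-vertical slice has Hausdorff dimension different from `1 - α` is not shy: the negative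
answer to Q2, and so to Q1.
-/

open MeasureTheory Set
open scoped ENNReal NNReal

namespace Pool.Agent.Results.MP_60983f_an.SlicePoint

open Pool.Agent.W172.WL Pool.Agent.W337.WL Pool.Agent.R733.Wei

theorem result : ∀ (b : ℕ) (α : ℝ), 2 ≤ b → 0 < α → α < 1 →
    ¬ IsShy {g : LS | (¬ ∃ c : ℝ, ∀ x, g.fn x = c) ∧
      ∃ θ t : ℝ, Real.sin θ ≠ 0 ∧ sInf (proj θ '' graphW b α g.fn) < t ∧
        t < sSup (proj θ '' graphW b α g.fn) ∧
        dimH (graphW b α g.fn ∩ proj θ ⁻¹' {t}) ≠ ENNReal.ofReal (1 - α)} := by
  intro b α hb hα hα1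
  obtain ⟨g₀, ε, hε, H⟩ := ball_single hb hα
  refine not_isShy_of_ball hε (g := g₀) fun g hg => ?_
  obtain ⟨hnc, θ, t, h1, h2, h3, p, hp⟩ := H g hg
  refine ⟨hnc, θ, t, h1, h2, h3, ?_⟩
  rw [hp, dimH_singleton]
  exact (ENNReal.ofReal_pos.mpr (by linarith)).ne

end Pool.Agent.Results.MP_60983f_an.SlicePoint
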